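import Pool.Agent.helper56.P2B.SpecD

/-!
# Project p2b: (MP_70a088_an), row PCX: every phase of event data is a pure configuration (helper2)
-/

set_option autoImplicit false

open Complex Metric Set Filter Topology MeasureTheory
open Pool.Agent.helper98.ILF
open WP (it)
open HY (UD T S hd UN RM)
open PM
open PL (TP LO PZ GJ INR PG DK ht tr DI CY SUBH hG hq BJ)
open P2 (SS FLS FL CLS FR TL)

noncomputable section

namespace P2B

/-- the affine permutation `ζ ↦ a ζ + b`. -/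
def PCX_af (a : ℝ) (b : ℂ) (ha : a ≠ 0) : Equiv.Perm ℂ where
  toFun ζ := (a : ℂ) * ζ + b
  invFun ζ := (ζ - b) / (a : ℂ)
  left_inv ζ := by
    have : (a : ℂ) ≠ 0 := by exact_mod_cast ha
    field_simp
    ring
  right_inv ζ := by
    have : (a : ℂ) ≠ 0 := by exact_mod_cast ha
    field_simp
    ring

theorem PCX_af_apply (a : ℝ) (b : ℂ) (ha : a ≠ 0) (ζ : ℂ) : PCX_af a b ha ζ = (a : ℂ) * ζ + b := rfl

theorem PCX_af_inv (a : ℝ) (b : ℂ) (ha : a ≠ 0) (ζ : ℂ) : (PCX_af a b ha)⁻¹ ζ = (ζ - b) / (a : ℂ) := rfl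

/-- the conformal radii decrease along the lines. -/
theorem PCX_cr (hTDF : TDF_stmt) (hTIN : TIN_stmt) (hVCF : VCF_stmt) {f : Polynomial ℂ} {R : ℝ} (hS : SS f R) {x : ℂ} (hx : x ∈ JJ f)
    (k : ℕ) : 0 < cr (VC f R k x) x ∧ ∀ l ≤ k, cr (VC f R k x) x ≤ cr (VC f R l x) x := by
  have hER : ER f R := ⟨hS.R1, hS.esc⟩
  have h1 := hVCF f R hS.deg hER k x (hS.Jv x hx k)
  refine ⟨((hTDF _ h1.1).2.2 x h1.2.1).2.1, fun l hl => ?_⟩
  have h2 := hVCF f R hS.deg hER l x (hS.Jv x hx l)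
  exact (hTIN _ _ h1.1 h2.1 (h1.2.2.2.2.2.1 l hl) x h1.2.1).1

/-- two affine maps which agree on a ball about `0`. -/
theorem PCX_eq {a a' : ℝ} {b b' : ℂ} {r : ℝ} (hr : 0 < r) (h : ∀ ζ ∈ ball (0 : ℂ) r, (a : ℂ) * ζ + b = (a' : ℂ) * ζ + b') : a = a' ∧ b = b' := by
  have h0 := h 0 (mem_ball_self hr)
  have hb : b = b' := by simpa using h0
  have h1 := h ((r / 2 : ℝ) : ℂ) (by
    rw [mem_ball, dist_zero_right, Complex.norm_real, Real.norm_eq_abs, abs_of_pos (by linarith)]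
    linarith)
  rw [hb] at h1
  have h2 : (a : ℂ) * ((r / 2 : ℝ) : ℂ) = (a' : ℂ) * ((r / 2 : ℝ) : ℂ) := add_right_cancel h1
  have h3 : ((r / 2 : ℝ) : ℂ) ≠ 0 := by
    have : (r / 2 : ℝ) ≠ 0 := by linarith
    exact_mod_cast this
  exact ⟨by exact_mod_cast mul_right_cancel₀ h3 h2, hb⟩

/-- limit of a composition. -/
theorem PCX_comp {U : Ultrafilter ℕ} {gb gq gm : ℕ → ℂ → ℂ} {aα aβ aν : ℝ} {b₁ b₂ b₃ : ℂ} {r : ℝ} (hr : 0 < r)
    (hq : TendstoLocallyUniformlyOn gq (fun ζ => (aα : ℂ) * ζ + b₁) U (ball 0 r))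
    (hm : TendstoLocallyUniformlyOn gm (fun ζ => (aν : ℂ) * ζ + b₂) U (ball 0 r))
    (hb : TendstoLocallyUniformlyOn gb (fun ζ => (aβ : ℂ) * ζ + b₃) U (ball 0 (r / 2)))
    (hsm : ∀ ζ ∈ ball (0 : ℂ) (r / 4), (aα : ℂ) * ζ + b₁ ∈ ball (0 : ℂ) (r / 2))
    (he : ∀ᶠ j in (U : Filter ℕ), ∀ ζ ∈ ball (0 : ℂ) (r / 4), gb j (gq j ζ) = gm j ζ) :
    aβ * aα = aν ∧ (aβ : ℂ) * b₁ + b₃ = b₂ := by
  have key : ∀ ζ ∈ ball (0 : ℂ) (r / 4), ((aβ * aα : ℝ) : ℂ) * ζ + ((aβ : ℂ) * b₁ + b₃) = (aν : ℂ) * ζ + b₂ := by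
    intro ζ hζ
    have hζ' : ζ ∈ ball (0 : ℂ) r := ball_subset_ball (by linarith) hζ
    have h1 : Tendsto (fun j => gq j ζ) U (𝓝 ((aα : ℂ) * ζ + b₁)) := hq.tendsto_at hζ'
    have h2 : Tendsto (fun j => gm j ζ) U (𝓝 ((aν : ℂ) * ζ + b₂)) := hm.tendsto_at hζ'
    have h3 : Tendsto (fun j => gb j (gq j ζ)) U (𝓝 ((aβ : ℂ) * ((aα : ℂ) * ζ + b₁) + b₃)) := by
      have hmem := hsm ζ hζ
      have hc : ContinuousWithinAt (fun ζ => (aβ : ℂ) * ζ + b₃) (ball 0 (r / 2)) ((aα : ℂ) * ζ + b₁) := by fun_prop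
      refine hb.tendsto_comp hc hmem ?_
      rw [tendsto_nhdsWithin_iff]
      exact ⟨h1, h1.eventually (isOpen_ball.mem_nhds hmem)⟩
    have h4 : Tendsto (fun j => gb j (gq j ζ)) U (𝓝 ((aν : ℂ) * ζ + b₂)) :=
      h2.congr' (by filter_upwards [he] with j hj using (hj ζ hζ).symm)
    have h5 := tendsto_nhds_unique h3 h4
    rw [← h5]
    push_cast
    ring
  obtain ⟨e1, e2⟩ := PCX_eq (show 0 < r / 4 by linarith) key
  exact ⟨e1, e2⟩

/-- the displacement in the limit. -/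
theorem PCX_far {U : Ultrafilter ℕ} {gq : ℕ → ℂ → ℂ} {aα : ℝ} {b₁ : ℂ} {r c : ℝ} (hr : 0 < r)
    (hq : TendstoLocallyUniformlyOn gq (fun ζ => (aα : ℂ) * ζ + b₁) U (ball 0 r))
    (hf : ∀ᶠ j in (U : Filter ℕ), ∃ ζ : ℂ, ‖ζ‖ ≤ r / 2 ∧ c ≤ ‖gq j ζ - ζ‖) : c ≤ |aα - 1| * (r / 2) + ‖b₁‖ := by
  have hK : TendstoUniformlyOn gq (fun ζ => (aα : ℂ) * ζ + b₁) U (closedBall 0 (r / 2)) :=
    (tendstoLocallyUniformlyOn_iff_forall_isCompact isOpen_ball).1 hq _ (closedBall_subset_ball (by linarith)) (isCompact_closedBall _ _)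
  refine le_of_forall_pos_le_add fun η hη => ?_
  have h1 := (Metric.tendstoUniformlyOn_iff.1 hK) η hη
  obtain ⟨j, hj1, ζ, hζ, hc⟩ := (h1.and hf).exists
  have h2 := hj1 ζ (by rw [mem_closedBall, dist_zero_right]; exact hζ)
  rw [dist_eq_norm] at h2
  have h3 : gq j ζ - ζ = -(((aα : ℂ) * ζ + b₁) - gq j ζ) + (((aα - 1 : ℝ) : ℂ) * ζ + b₁) := by
    push_cast
    ring
  rw [h3] at hc
  have h4 : ‖((aα - 1 : ℝ) : ℂ) * ζ‖ ≤ |aα - 1| * (r / 2) := by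
    rw [norm_mul, Complex.norm_real, Real.norm_eq_abs]
    exact mul_le_mul_of_nonneg_left hζ (abs_nonneg _)
  have h5 := norm_add_le (-(((aα : ℂ) * ζ + b₁) - gq j ζ)) (((aα - 1 : ℝ) : ℂ) * ζ + b₁)
  have h6 := norm_add_le (((aα - 1 : ℝ) : ℂ) * ζ) b₁
  rw [norm_neg] at h5
  linarith

theorem PCX (hTDF : TDF_stmt) (hTSP : TSP_stmt) (hTIN : TIN_stmt) (hVCF : VCF_stmt) (hRVL : RVL_stmt) (hRTB : RTB_stmt) (hINC : INC_stmt)
    (hKAP : KAP_stmt) (hPHX : PHX_stmt) (hLNK : LNK_stmt) (hMXL : MXL_stmt) (hNMX : NMX_stmt) : PCX_stmt := by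
  obtain ⟨rL, hrL, hLNK⟩ := hLNK
  obtain ⟨rR, hrR, hrR1, hRVL⟩ := hRVL
  obtain ⟨rN, hrN, hNMX⟩ := hNMX
  obtain ⟨K, hK, hKAP⟩ := hKAP
  have hK0 : 0 < K := by linarith
  refine ⟨min (min rL rR) (min rN 1), by positivity, ?_⟩
  intro r hr hr₀ a ha δ' hδ'
  have hrL' : r ≤ rL := hr₀.trans ((min_le_left _ _).trans (min_le_left _ _))
  have hrR' : r ≤ rR := hr₀.trans ((min_le_left _ _).trans (min_le_right _ _))
  have hrN' : r ≤ rN := hr₀.trans ((min_le_right _ _).trans (min_le_left _ _))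
  have hr1 : r ≤ 1 := hr₀.trans ((min_le_right _ _).trans (min_le_right _ _))
  refine ⟨min (δ' * r / 4) (r / 64), by positivity, min_le_right _ _, ?_⟩
  set δ := min (δ' * r / 4) (r / 64) with hδdef
  have hδ0 : 0 < δ := by positivity
  have hδ1 : δ ≤ δ' * r / 4 := min_le_left _ _
  have hδ2 : δ ≤ r / 64 := min_le_right _ _
  intro ε hε
  set η : ℝ := min (1 / 4) (ε / (2 + ε)) with hηdef
  have hη0 : 0 < η := by positivity
  have hη1 : η ≤ 1 / 4 := min_le_left _ _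
  have hη2 : η ≤ ε / (2 + ε) := min_le_right _ _
  refine ⟨min (min δ (r * ε / 4)) (r * η / (4 * K)), by positivity, ?_⟩
  intro e he0 he₀ f R hS μ x₀ hTP U hU x c n T q m gq gm hEV i hi
  have heδ : e ≤ δ := he₀.trans ((min_le_left _ _).trans (min_le_left _ _))
  have heε : e ≤ r * ε / 4 := he₀.trans ((min_le_left _ _).trans (min_le_right _ _))
  have heη : e ≤ r * η / (4 * K) := he₀.trans (min_le_right _ _)
  have hJ := hEV.J
  -- the places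
  have hPH : ∀ i : ℕ → ℕ, (∀ᶠ j in (U : Filter ℕ), i j ≤ m j) → ∃ χ G : ℂ → ℂ, PH f R x U n (fun j => T j + i j) a χ G := by
    intro i hi
    refine hPHX f R hS μ x₀ hTP x hJ U hU a n (fun j => T j + i j) ha (hEV.ve i hi) ?_
    filter_upwards [hEV.lo, hi] with j h1 h2 using h1 (i j) h2
  have hq : ∀ᶠ j in (U : Filter ℕ), q j ≤ m j := by
    filter_upwards [hEV.lt] with j hj using hj.2.le
  have hm' : ∀ᶠ j in (U : Filter ℕ), m j ≤ m j := Eventually.of_forall fun _ => le_rfl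
  have hb : ∀ᶠ j in (U : Filter ℕ), m j - q j ≤ m j := Eventually.of_forall fun _ => Nat.sub_le _ _
  have h0 : ∀ᶠ j in (U : Filter ℕ), (0 : ℕ) ≤ m j := Eventually.of_forall fun _ => Nat.zero_le _
  obtain ⟨χ₀, G₀, P0⟩ := hPH (fun _ => 0) h0
  obtain ⟨χq, Gq, Pq⟩ := hPH q hq
  obtain ⟨χm, Gm, Pm⟩ := hPH m hm'
  obtain ⟨χb, Gb, Pb⟩ := hPH (fun j => m j - q j) hb
  obtain ⟨χ, G, Pi⟩ := hPH i hi
  have P0' : PH f R x U n T a χ₀ G₀ := P0
  have hFL : FL f R μ x₀ x U (fun j => n j + T j) := (hEV.ve (fun _ => 0) h0).fl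
  -- the links
  obtain ⟨κq, aα, b₁, Lq, hα1, hb1, hgq, -⟩ := hLNK f R hS μ x₀ hTP x hJ U hU n T q r δ a gq hr hrL' hδ0.le (by linarith) hFL hEV.rq
    χ₀ χq G₀ Gq P0' Pq
  obtain ⟨κm, aν, b₂, Lm, hν1, hb2, hgm, hκm⟩ := hLNK f R hS μ x₀ hTP x hJ U hU n T m r e a gm hr hrL' he0.le (by linarith) hFL hEV.rm
    χ₀ χm G₀ Gm P0' Pm
  have hRb : ∀ᶠ j in (U : Filter ℕ), ∃ g : ℂ → ℂ, RET f R (x j) (n j) (T j) (m j - q j) (r / 2) (δ + e) g ∧ ∀ ζ ∈ ball (0 : ℂ) (r / 4), g (gq j ζ) = gm j ζ := by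
    filter_upwards [hEV.rq, hEV.rm, hq] with j h1 h2 h3
    exact hRTB f R (x j) (n j) (T j) (q j) (m j) r δ e (gq j) (gm j) hr hδ0.le he0.le (by linarith) (by linarith) h3 h1 h2
  obtain ⟨gb, hgb⟩ : ∃ gb : ℕ → ℂ → ℂ, ∀ᶠ j in (U : Filter ℕ), RET f R (x j) (n j) (T j) (m j - q j) (r / 2) (δ + e) (gb j) ∧
      ∀ ζ ∈ ball (0 : ℂ) (r / 4), gb j (gq j ζ) = gm j ζ := by
    classical
    refine ⟨fun j => if h : ∃ g : ℂ → ℂ, RET f R (x j) (n j) (T j) (m j - q j) (r / 2) (δ + e) g ∧ ∀ ζ ∈ ball (0 : ℂ) (r / 4), g (gq j ζ) = gm j ζ then h.choose else id, ?_⟩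
    filter_upwards [hRb] with j hj
    rw [dif_pos hj]
    exact hj.choose_spec
  obtain ⟨κb, aβ, b₃, Lb, hβ1, hb3, hgbl, -⟩ := hLNK f R hS μ x₀ hTP x hJ U hU n T (fun j => m j - q j) (r / 2) (δ + e) a gb (by linarith) (by linarith)
    (by linarith) (by linarith) hFL (hgb.mono fun j hj => hj.1) χ₀ χb G₀ Gb P0' Pb
  -- numerical consequences
  have hrδ : 2 * δ / r ≤ δ' / 2 := by
    rw [div_le_iff₀ hr]
    nlinarith
  have hrδ2 : 2 * δ / r ≤ 1 / 32 := by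
    rw [div_le_iff₀ hr]
    linarith
  have hsm : ∀ ζ ∈ ball (0 : ℂ) (r / 4), (aα : ℂ) * ζ + b₁ ∈ ball (0 : ℂ) (r / 2) := by
    intro ζ hζ
    rw [mem_ball, dist_zero_right] at hζ ⊢
    have h1 : (aα : ℂ) * ζ + b₁ = ζ + (((aα - 1 : ℝ) : ℂ) * ζ + b₁) := by
      push_cast
      ring
    have h2 : ‖((aα - 1 : ℝ) : ℂ) * ζ‖ ≤ 1 * ‖ζ‖ := by
      rw [norm_mul, Complex.norm_real, Real.norm_eq_abs]
      exact mul_le_mul_of_nonneg_right (by linarith) (norm_nonneg _)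
    have h2' : ‖((aα - 1 : ℝ) : ℂ) * ζ‖ ≤ 1 / 32 * ‖ζ‖ := by
      rw [norm_mul, Complex.norm_real, Real.norm_eq_abs]
      exact mul_le_mul_of_nonneg_right (by linarith) (norm_nonneg _)
    have h3 := norm_add_le ζ (((aα - 1 : ℝ) : ℂ) * ζ + b₁)
    have h4 := norm_add_le (((aα - 1 : ℝ) : ℂ) * ζ) b₁
    rw [h1]
    linarith [norm_nonneg ζ]
  obtain ⟨hβα, hβb⟩ := PCX_comp hr hgq hgm hgbl hsm (hgb.mono fun j hj => hj.2)
  have he_r : 2 * e / r + e ≤ η / K := by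
    have h1 : 2 * e / r ≤ η / (2 * K) := by
      rw [div_le_iff₀ hr]
      have h2 : η / (2 * K) * r = 2 * (r * η / (4 * K)) := by
        field_simp
        ring
      rw [h2]
      linarith
    have h2 : e ≤ η / (4 * K) := by
      refine heη.trans ?_
      rw [div_le_div_iff_of_pos_right (by positivity)]
      nlinarith
    have h3 : η / (2 * K) + η / (4 * K) ≤ η / K := by
      have : η / (2 * K) + η / (4 * K) = 3 / 4 * (η / K) := by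
        field_simp
        ring
      rw [this]
      have : 0 ≤ η / K := by positivity
      linarith
    linarith
  have hηK : η / K ≤ 1 / K := by
    rw [div_le_div_iff_of_pos_right hK0]
    linarith
  have h2er : 0 ≤ 2 * e / r := by positivity
  have hκm1 : 1 - η ≤ κm := by
    have h := hKAP (χ₀ '' UD) (χm '' UD) G₀ Gm κm aν b₂ P0'.pg Pm.pg Lm (by linarith) (by linarith)
    have h1 : K * (|aν - 1| + ‖b₂‖) ≤ η := by
      calc K * (|aν - 1| + ‖b₂‖) ≤ K * (2 * e / r + e) := mul_le_mul_of_nonneg_left (by linarith) hK0.le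
        _ ≤ K * (η / K) := mul_le_mul_of_nonneg_left he_r hK0.le
        _ = η := by field_simp
    linarith
  -- the ratios
  have hcr := fun j k => PCX_cr hTDF hTIN hVCF hS (hJ j) k
  have hrv : ∀ᶠ j in (U : Filter ℕ), r * cr (VC f R (n j + T j) (x j)) (x j) ≤ cr (VC f R (n j + (T j + m j)) (x j)) (x j) := by
    filter_upwards [hEV.rm] with j hj
    exact (hRVL f R hS (x j) (hJ j) (n j) (T j) (m j) r e (gm j) hr hrR' (by linarith) hj).2.2.2.2.1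
  obtain ⟨κ, hκr, hκ1, hκt, hκs⟩ := hINC f R hS x hJ U n T (fun j => T j + i j) χ₀ χ r hr (Eventually.of_forall fun j => Nat.le_add_right _ _)
    P0'.fr Pi.fr (by
      filter_upwards [hrv, hi] with j h1 h2
      exact h1.trans ((hcr j _).2 _ (by omega)))
  obtain ⟨κ', hκr', hκ1', hκt', hκs'⟩ := hINC f R hS x hJ U n (fun j => T j + i j) (fun j => T j + m j) χ χm r hr
    (by filter_upwards [hi] with j h1; exact Nat.add_le_add_left h1 _)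
    Pi.fr Pm.fr (by
      filter_upwards [hrv] with j h1
      exact (mul_le_mul_of_nonneg_left ((hcr j _).2 _ (by omega)) hr.le).trans h1)
  have hκ0 : 0 < κ := lt_of_lt_of_le hr hκr
  have hκκ : κ' * κ = κm := by
    refine tendsto_nhds_unique (hκt'.mul hκt) (hκm.congr fun j => ?_)
    have h1 := (hcr j (n j + (T j + i j))).1
    have h2 := (hcr j (n j + T j)).1
    field_simp
  have hκge : 1 - η ≤ κ := by
    have : κ' * κ ≤ 1 * κ := mul_le_mul_of_nonneg_right hκ1' hκ0.le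
    linarith
  have hκ'eq : κ' = κm / κ := by
    rw [← hκκ]
    field_simp
  have hκhalf : 1 / 2 < κ := by linarith
  have hκC : (κ : ℂ) ≠ 0 := by exact_mod_cast hκ0.ne'
  have hκmC : (κm : ℂ) ≠ 0 := by exact_mod_cast Lm.k0.ne'
  have hκqC : (κq : ℂ) ≠ 0 := by exact_mod_cast Lq.k0.ne'
  have hκbC : (κb : ℂ) ≠ 0 := by exact_mod_cast Lb.k0.ne'
  have hαC : (aα : ℂ) ≠ 0 := by exact_mod_cast Lq.a0
  have hνC : (aν : ℂ) ≠ 0 := by exact_mod_cast Lm.a0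
  have hβC : (aβ : ℂ) ≠ 0 := by exact_mod_cast Lb.a0
  -- the inverse maps in the scale of the place `T`
  have hLq : ∀ z ∈ χ₀ '' UD, (z - b₁) / (aα : ℂ) ∈ χ₀ '' UD := by
    intro z hz
    have h1 : (aα : ℂ) * ((κq : ℂ) * ((z - b₁) / (aα : ℂ) / (κq : ℂ))) + b₁ = z := by
      field_simp
      ring
    have h2 := (Lq.iff ((z - b₁) / (aα : ℂ) / (κq : ℂ))).1 (by rw [h1]; exact hz)
    have h3 := Lq.sub _ h2
    rwa [mul_div_cancel₀ _ hκqC] at h3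
  have hLb : ∀ z ∈ χ₀ '' UD, (z - b₃) / (aβ : ℂ) ∈ χ₀ '' UD := by
    intro z hz
    have h1 : (aβ : ℂ) * ((κb : ℂ) * ((z - b₃) / (aβ : ℂ) / (κb : ℂ))) + b₃ = z := by
      field_simp
      ring
    have h2 := (Lb.iff ((z - b₃) / (aβ : ℂ) / (κb : ℂ))).1 (by rw [h1]; exact hz)
    have h3 := Lb.sub _ h2
    rwa [mul_div_cancel₀ _ hκbC] at h3
  have hLm : ∀ z ∈ χ₀ '' UD, (z - b₂) / (aν : ℂ) / (κ : ℂ) ∈ χ '' UD := by
    intro z hz
    have h1 : (aν : ℂ) * ((κm : ℂ) * ((z - b₂) / (aν : ℂ) / (κm : ℂ))) + b₂ = z := by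
      field_simp
      ring
    have h2 := (Lm.iff ((z - b₂) / (aν : ℂ) / (κm : ℂ))).1 (by rw [h1]; exact hz)
    have h3 := hκs' _ h2
    have h4 : ((κ' : ℝ) : ℂ) * ((z - b₂) / (aν : ℂ) / (κm : ℂ)) = (z - b₂) / (aν : ℂ) / (κ : ℂ) := by
      rw [hκ'eq]
      push_cast
      field_simp
    rwa [h4] at h3
  -- the maps
  set bα : ℂ := b₁ / (κ : ℂ) with hbα
  set bν : ℂ := b₂ / (κ : ℂ) with hbν
  have hκbα : (κ : ℂ) * bα = b₁ := by
    rw [hbα]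
    field_simp
  have hκbν : (κ : ℂ) * bν = b₂ := by
    rw [hbν]
    field_simp
  have hnκ : ‖(κ : ℂ)‖ = κ := by rw [Complex.norm_real, Real.norm_eq_abs, abs_of_pos hκ0]
  have hgq' : TendstoLocallyUniformlyOn gq (fun ζ => (aα : ℂ) * ζ + (κ : ℂ) * bα) U (ball 0 r) := by rw [hκbα]; exact hgq
  have hgm' : TendstoLocallyUniformlyOn gm (fun ζ => (aν : ℂ) * ζ + (κ : ℂ) * bν) U (ball 0 r) := by rw [hκbν]; exact hgm
  refine ⟨χ, G, PCX_af aα bα Lq.a0, PCX_af aν bν Lm.a0, aα, aν, κ, bα, bν, ?_⟩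
  refine ⟨Pi, ?_, hκ0, hκt, hgq'⟩
  refine ⟨Pi.pg, Pi.g0, Pi.ty, Pi.onto, Pi.lo, fun ζ => rfl, fun ζ => rfl, by linarith, ?_, ?_, ?_, ?_, ?_, ?_, ?_, ?_⟩
  · -- α2
    rw [hbα, norm_div, hnκ, div_le_iff₀ hκ0]
    nlinarith
  · -- α3
    have h1 := PCX_far hr hgq hEV.far
    have h2 : ‖b₁‖ ≤ ‖bα‖ := by
      rw [← hκbα, norm_mul, hnκ]
      nlinarith [norm_nonneg bα]
    have h3 : |aα - 1| * (r / 2) ≤ |aα - 1| * 1 := mul_le_mul_of_nonneg_left (by linarith) (abs_nonneg _)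
    linarith
  · -- ν1
    have : 2 * e / r ≤ ε := by
      rw [div_le_iff₀ hr]
      nlinarith
    linarith
  · -- ν2
    rw [hbν, norm_div, hnκ, div_le_iff₀ hκ0]
    nlinarith
  · -- i1
    intro ζ hζ
    have h1 := hLm _ (hLq _ (hκs ζ hζ))
    have h2 : (PCX_af aν bν Lm.a0)⁻¹ ((PCX_af aα bα Lq.a0)⁻¹ ζ) = (((κ : ℂ) * ζ - b₁) / (aα : ℂ) - b₂) / (aν : ℂ) / (κ : ℂ) := by
      rw [PCX_af_inv, PCX_af_inv, ← hκbα, ← hκbν]
      field_simp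
    rw [h2]
    exact h1
  · -- i2
    intro ζ hζ
    have h1 := hLm _ (hLb _ (hκs ζ hζ))
    have hβα' : (aβ : ℂ) * (aα : ℂ) = (aν : ℂ) := by exact_mod_cast hβα
    have h2 : (PCX_af aν bν Lm.a0)⁻¹ ((PCX_af aα bα Lq.a0) ((PCX_af aν bν Lm.a0)⁻¹ ζ)) = (((κ : ℂ) * ζ - b₃) / (aβ : ℂ) - b₂) / (aν : ℂ) / (κ : ℂ) := by
      rw [PCX_af_inv, PCX_af_inv, PCX_af_apply]
      have h3 : ((κ : ℂ) * ζ - b₃) / (aβ : ℂ) = (κ : ℂ) * ((aα : ℂ) * ((ζ - bν) / (aν : ℂ)) + bα) := by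
        rw [← hβα'] at *
        have h4 : b₃ = (κ : ℂ) * bν - (aβ : ℂ) * ((κ : ℂ) * bα) := by rw [hκbα, hκbν, ← hβb]; ring
        rw [h4]
        field_simp
        ring
      rw [h3, ← hκbν]
      field_simp
    rw [h2]
    exact h1
  · -- mx
    intro ζ hζ hζ4
    have hop : IsOpen (χ '' UD) := (hTDF _ Pi.pg.dd).1
    have h1 := hMXL f R hS μ x₀ hTP x hJ U (fun j => n j + T j) χ₀ hU hFL P0'.fr hEV.mx ((κ : ℂ) * ζ) (hκs ζ hζ) (by
      rw [norm_mul, hnκ]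
      nlinarith [norm_nonneg ζ])
    have hd : HasDerivAt (fun z : ℂ => (κ : ℂ) * z) (κ : ℂ) ζ := by
      simpa using (hasDerivAt_id ζ).const_mul (κ : ℂ)
    have h2 := (hTSP (χ '' UD) (χ₀ '' UD) (fun z => (κ : ℂ) * z) Pi.pg.dd P0'.pg.dd (by fun_prop) hκs ζ hζ).1
    rw [hd.deriv, hnκ] at h2
    have h3 : κ * cr (χ '' UD) ζ ≤ 2 := h2.trans h1
    have h4 : 2 ≤ (2 + ε) * κ := by
      have h5 : (2 + ε) * (1 - η) ≤ (2 + ε) * κ := mul_le_mul_of_nonneg_left hκge (by linarith)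
      have h6 : (2 + ε) * η ≤ ε := by
        calc (2 + ε) * η ≤ (2 + ε) * (ε / (2 + ε)) := mul_le_mul_of_nonneg_left hη2 (by linarith)
          _ = ε := by field_simp
      nlinarith
    have h7 : κ * cr (χ '' UD) ζ ≤ κ * (2 + ε) := by linarith
    exact le_of_mul_le_mul_left h7 hκ0
  · -- nm
    exact hNMX f R hS μ x₀ hTP U hU x r a c δ e n T q m gq gm hr hrN' ha hδ0 he0 heδ hδ2 hEV i hi χ G Pi _ _ aα aν κ bα bν hκhalf hκt
      (fun ζ => rfl) (fun ζ => rfl) hgq' hgm'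

end P2B
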